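import Pool.Agent.SGE.Stmts

/-!
# SGE, rows CB and MIR: basic facts on canonical sequences
-/

noncomputable section

namespace Pool.Agent.SGE.H29

open Pool.Agent.SGE

/-- CB -/
theorem cb : CbStmt := by
  intro V a b C S h
  induction h with
  | base h =>
    refine ⟨h, ?_, ⟨[], rfl⟩, ?_, List.nodup_nil, ?_⟩
    · simp [h]
    · intro u hu
      simp only [List.mem_cons, List.not_mem_nil, or_false] at hu
      rcases hu with hu | hu
      · exact Or.inl hu
      · exact Or.inr (Or.inl hu)
    · intro x hx
      simp at hx
  | @step P Q mid p q v S h ha hb hv ih =>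
    obtain ⟨hab, hnd, ⟨D, hD⟩, hC, hS, hx⟩ := ih
    have hvC : v ∉ P ++ p :: (mid ++ q :: Q) := by
      intro hvC
      rcases hC v hvC with h1 | h1 | ⟨x, hx1, hx2⟩
      · exact ha h1
      · exact hb h1
      · exact hv x hx1 hx2
    have hnd' : (P ++ p :: v :: q :: Q).Nodup := by
      have e1 : (P ++ p :: (mid ++ q :: Q)).Sublist (P ++ p :: (mid ++ q :: Q)) :=
        List.Sublist.refl _
      have h1 : (P ++ p :: q :: Q).Nodup := by
        refine hnd.sublist ?_
        refine List.Sublist.append (List.Sublist.refl _) ?_
        refine List.Sublist.cons_cons _ ?_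
        exact List.sublist_append_right _ _
      have h2 : v ∉ P ++ p :: q :: Q := by
        intro h3
        apply hvC
        simp only [List.mem_append, List.mem_cons] at h3 ⊢
        rcases h3 with h3 | h3 | h3 | h3
        · exact Or.inl h3
        · exact Or.inr (Or.inl h3)
        · exact Or.inr (Or.inr (Or.inr (Or.inl h3)))
        · exact Or.inr (Or.inr (Or.inr (Or.inr h3)))
      have h3 : (v :: (P ++ p :: q :: Q)).Nodup := List.nodup_cons.2 ⟨h2, h1⟩
      refine (List.Perm.nodup_iff ?_).1 h3
      have e2 : P ++ p :: v :: q :: Q = (P ++ [p]) ++ v :: (q :: Q) := by simp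
      have e3 : P ++ p :: q :: Q = (P ++ [p]) ++ (q :: Q) := by simp
      rw [e2, e3]
      exact List.perm_middle.symm
    refine ⟨hab, hnd', ?_, ?_, ?_, ?_⟩
    · -- first and last elements
      have h1 : ∃ D', P ++ p :: v :: q :: Q = a :: D' := by
        cases P with
        | nil =>
          simp only [List.nil_append, List.cons.injEq] at hD
          exact ⟨v :: q :: Q, by rw [hD.1]; rfl⟩
        | cons c P =>
          simp only [List.cons_append, List.cons.injEq] at hD
          exact ⟨P ++ p :: v :: q :: Q, by rw [hD.1]; rfl⟩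
      have h2 : ∃ D', P ++ p :: v :: q :: Q = D' ++ [b] := by
        rcases List.eq_nil_or_concat Q with hQ | ⟨Q', c, hQ⟩
        · subst hQ
          have h3 : (P ++ p :: mid) ++ [q] = (a :: D) ++ [b] := by
            simpa using hD
          have h4 := (List.append_inj' h3 rfl).2
          simp only [List.cons.injEq, and_true] at h4
          exact ⟨P ++ p :: [v], by rw [h4]; simp⟩
        · subst hQ
          have h3 : (P ++ p :: (mid ++ q :: Q')) ++ [c] = (a :: D) ++ [b] := by
            simpa using hD
          have h4 := (List.append_inj' h3 rfl).2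
          simp only [List.cons.injEq, and_true] at h4
          exact ⟨P ++ p :: v :: q :: Q', by rw [h4]; simp⟩
      obtain ⟨D1, h1⟩ := h1
      obtain ⟨D2, h2⟩ := h2
      cases D2 with
      | nil =>
        rw [h2] at h1
        simp only [List.nil_append, List.cons.injEq] at h1
        exact absurd h1.1.symm hab
      | cons c D2 =>
        rw [h2] at h1
        simp only [List.cons_append, List.cons.injEq] at h1
        exact ⟨D2, by rw [h2, h1.1]; rfl⟩
    · intro u hu
      simp only [List.mem_append, List.mem_cons] at hu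
      have h0 : ∀ u, u ∈ P ++ p :: (mid ++ q :: Q) →
          u = a ∨ u = b ∨ ∃ x ∈ (v, p :: (mid ++ [q])) :: S, x.1 = u := by
        intro u hu
        rcases hC u hu with h1 | h1 | ⟨x, h1, h2⟩
        · exact Or.inl h1
        · exact Or.inr (Or.inl h1)
        · exact Or.inr (Or.inr ⟨x, List.mem_cons_of_mem _ h1, h2⟩)
      rcases hu with h1 | h1 | h1 | h1 | h1
      · exact h0 u (by simp [h1])
      · exact h0 u (by simp [h1])
      · exact Or.inr (Or.inr ⟨_, List.mem_cons_self, h1.symm⟩)
      · exact h0 u (by simp [h1])
      · exact h0 u (by simp [h1])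
    · rw [List.map_cons, List.nodup_cons]
      refine ⟨?_, hS⟩
      intro h1
      obtain ⟨x, h2, h3⟩ := List.mem_map.1 h1
      exact hv x h2 h3
    · intro x hx'
      rcases List.mem_cons.1 hx' with rfl | h1
      · have hsub : (p :: (mid ++ [q])).Sublist (P ++ p :: (mid ++ q :: Q)) := by
          have e1 : P ++ p :: (mid ++ q :: Q) = P ++ ((p :: (mid ++ [q])) ++ Q) := by simp
          rw [e1]
          exact (List.sublist_append_left _ _).trans (List.sublist_append_right _ _)
        refine ⟨ha, hb, ?_, hnd.sublist hsub, by simp, ?_⟩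
        · intro h1
          exact hvC (hsub.subset h1)
        · intro u hu
          rcases hC u (hsub.subset hu) with h1 | h1 | ⟨x, h1, h2⟩
          · exact Or.inl h1
          · exact Or.inr (Or.inl h1)
          · exact Or.inr (Or.inr ⟨x, List.mem_cons_of_mem _ h1, h2⟩)
      · obtain ⟨h2, h3, h4, h5, h6, h7⟩ := hx x h1
        refine ⟨h2, h3, h4, h5, h6, fun u hu => ?_⟩
        rcases h7 u hu with h1 | h1 | ⟨x, h1, h2⟩
        · exact Or.inl h1
        · exact Or.inr (Or.inl h1)
        · exact Or.inr (Or.inr ⟨x, List.mem_cons_of_mem _ h1, h2⟩)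

/-- MIR -/
theorem mir : MirStmt := by
  intro V a b C S h
  induction h with
  | base h =>
    exact Can.base (Ne.symm h)
  | @step P Q mid p q v S h ha hb hv ih =>
    have e1 : (P ++ p :: (mid ++ q :: Q)).reverse =
        Q.reverse ++ q :: (mid.reverse ++ p :: P.reverse) := by simp
    have e2 : (P ++ p :: v :: q :: Q).reverse = Q.reverse ++ q :: v :: p :: P.reverse := by simp
    rw [e1] at ih
    rw [e2, List.map_cons]
    have e3 : (p :: (mid ++ [q])).reverse = q :: (mid.reverse ++ [p]) := by simp
    rw [e3]
    refine Can.step ih hb ha ?_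
    intro x hx
    obtain ⟨y, hy, rfl⟩ := List.mem_map.1 hx
    exact hv y hy

end Pool.Agent.SGE.H29
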