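import Pool.Agent.SGE.Stmts

/-!
# SGE, row GEO: planar graphs have rightmost canonical sequences
-/

noncomputable section

namespace Pool.Agent.SGE.H29

open Pool.Agent.SGE

/-- GEO -/
theorem geo (hout : OutStmt) (htmx : TmxStmt) (hswe : SweStmt) (hcns : CnsStmt) : GeoStmt := by
  intro n G hG
  obtain ⟨g, hgp, hot, hcf⟩ := hout G hG
  let D : Fin n ⊕ Fin 3 → Fin n ⊕ Fin 3 → Prop := fun s t =>
    ∃ u v, s = Sum.inl u ∧ t = Sum.inl v ∧ G.Adj u v
  obtain ⟨T, hT, hDT⟩ := htmx D hgp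
    (by
      rintro s t ⟨u, v, h1, h2, h3⟩
      exact ⟨v, u, h2, h1, h3.symm⟩)
    (by
      rintro s ⟨u, v, h1, h2, h3⟩
      rw [h1] at h2
      have := Sum.inl_injective h2
      subst this
      exact G.loopless.irrefl u h3)
    (by
      rintro _ _ _ _ ⟨u, v, rfl, rfl, h3⟩ ⟨u', v', rfl, rfl, h3'⟩
      exact hcf u v u' v' h3 h3')
  obtain ⟨E, F, hNT, hTE, hE⟩ := hswe hT hot
  obtain ⟨S, hS, h1, h2, -⟩ := hcns hNT
  refine ⟨S, hS, ?_, ?_⟩
  · intro v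
    obtain ⟨x, hx⟩ := hE (Sum.inl v)
    rcases h1 _ _ hx with h | h | h
    · simp at h
    · simp at h
    · exact h
  · intro u w huw
    have h3 := hTE _ _ (hDT (Sum.inl u) (Sum.inl w) ⟨u, w, rfl, rfl, huw⟩)
    rcases h2 _ _ h3 with ⟨h, -⟩ | ⟨h, -⟩ | h | h
    · simp at h
    · simp at h
    · exact Or.inl h
    · exact Or.inr h

end Pool.Agent.SGE.H29
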