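import Pool.Agent.SGE.Stmts

/-!
# SGE, row ORD: orders without conflicts and a large increasing set
-/

noncomputable section

namespace Pool.Agent.SGE.H29

open Pool.Agent.SGE

theorem ord_core (hint : IntStmt) (hncx : NcxStmt) {n : ℕ} {G : SimpleGraph (Fin n)}
    {a b : Fin n ⊕ Fin 3} {C : List (Fin n ⊕ Fin 3)}
    {S : List ((Fin n ⊕ Fin 3) × List (Fin n ⊕ Fin 3))} (hcan : Can a b C S)
    (hall : ∀ v : Fin n, ∃ y ∈ S, y.1 = Sum.inl v)
    (hadj : ∀ u w, G.Adj u w → (∃ y ∈ S, y.1 = Sum.inl u ∧ Sum.inl w ∈ y.2) ∨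
      ∃ y ∈ S, y.1 = Sum.inl w ∧ Sum.inl u ∈ y.2)
    (B : Finset (Fin n)) (hB : ∀ v ∈ B, ¬ IsR S (Sum.inl v)) (hcard : n / 2 + 1 ≤ B.card) :
    ∃ x y : Fin n → ℝ, Function.Injective x ∧ Function.Injective y ∧ NC G x y ∧
      ∃ A : Finset (Fin n), A.card = n / 2 + 1 ∧ ∀ u ∈ A, ∀ w ∈ A, (x u < x w ↔ y u < y w) := by
  obtain ⟨X, Y, hO, hd, hR⟩ := hint hcan
  refine ⟨fun v => X (Sum.inl v), fun v => Y (Sum.inl v), ?_, ?_, ?_, ?_⟩
  · intro u w h
    by_contra hne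
    exact (hd (Sum.inl u) (Sum.inl w) (Or.inr (Or.inr (hall u))) (Or.inr (Or.inr (hall w)))
      (fun h' => hne (Sum.inl_injective h'))).1 h
  · intro u w h
    by_contra hne
    exact (hd (Sum.inl u) (Sum.inl w) (Or.inr (Or.inr (hall u))) (Or.inr (Or.inr (hall w)))
      (fun h' => hne (Sum.inl_injective h'))).2 h
  · have key : ∀ u w, G.Adj u w → Y (Sum.inl u) < Y (Sum.inl w) →
        ∃ ℓ, (Sum.inl w, ℓ) ∈ S ∧ Sum.inl u ∈ ℓ := by
      intro u w huw hlt
      rcases hadj u w huw with ⟨⟨s, ℓ⟩, hs, h1, h2⟩ | ⟨⟨s, ℓ⟩, hs, h1, h2⟩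
      · exfalso
        simp only at h1 h2
        subst h1
        exact lt_asymm hlt (hO.up _ _ _ hs h2)
      · simp only at h1 h2
        subst h1
        exact ⟨ℓ, hs, h2⟩
    intro a₁ b₁ a₂ b₂ h1 h2 h3 h4 h5
    obtain ⟨ℓ₁, h6, h7⟩ := key a₁ b₁ h1 h3
    obtain ⟨ℓ₂, h8, h9⟩ := key a₂ b₂ h2 (lt_trans h4 h5)
    exact hncx hcan hO _ ℓ₁ _ _ ℓ₂ _ h6 h7 h8 h9 h5 h4
  · obtain ⟨A, hA, hA'⟩ := Finset.exists_subset_card_eq hcard
    refine ⟨A, hA', fun u hu w hw => ?_⟩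
    exact hR _ _ (hall u) (hall w) (hB u (hA hu)) (hB w (hA hw))

theorem isR_rev {V : Type} {S : List (V × List V)} {u : V} :
    IsR (S.map fun x => (x.1, x.2.reverse)) u ↔ IsL S u := by
  unfold IsR IsL
  constructor
  · rintro ⟨x, hx, h⟩
    obtain ⟨y, hy, rfl⟩ := List.mem_map.1 hx
    refine ⟨y, hy, ?_⟩
    simpa using h
  · rintro ⟨y, hy, h⟩
    exact ⟨_, List.mem_map.2 ⟨y, hy, rfl⟩, by simpa using h⟩

/-- ORD -/
theorem ord (hgeo : GeoStmt) (hcou : CouStmt) (hint : IntStmt) (hncx : NcxStmt) (hmir : MirStmt)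
    (hcb : CbStmt) : OrdStmt := by
  intro n hn G hG
  classical
  obtain ⟨S, hS, hall, hadj⟩ := hgeo G hG
  have hcan := hS.can
  obtain ⟨-, -, -, hC, hSn, hSx⟩ := hcb hcan
  have hmem : ∀ u ∈ S.map Prod.fst, u = Sum.inr 2 ∨ ∃ v, u = Sum.inl v := by
    intro u hu
    obtain ⟨y, hy, rfl⟩ := List.mem_map.1 hu
    have h1 := hSx y hy
    rcases h : y.1 with v | j
    · exact Or.inr ⟨v, rfl⟩
    · left
      rw [h] at h1
      fin_cases j
      · exact absurd rfl h1.1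
      · exact absurd rfl h1.2.1
      · rfl
  have hlen : S.length = n + 1 := by
    have h1 : (S.map Prod.fst).toFinset =
        insert (Sum.inr 2) ((Finset.univ : Finset (Fin n)).image Sum.inl) := by
      ext u
      rw [List.mem_toFinset, Finset.mem_insert, Finset.mem_image]
      constructor
      · intro hu
        rcases hmem u hu with h | ⟨v, h⟩
        · exact Or.inl h
        · exact Or.inr ⟨v, Finset.mem_univ _, h.symm⟩
      · rintro (rfl | ⟨v, -, rfl⟩)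
        · rcases hC (Sum.inr 2) (by simp) with h | h | ⟨x, hx, h⟩
          · simp at h
          · simp at h
          · exact List.mem_map.2 ⟨x, hx, h⟩
        · obtain ⟨y, hy, h⟩ := hall v
          exact List.mem_map.2 ⟨y, hy, h⟩
    have h2 := List.toFinset_card_of_nodup hSn
    rw [h1, Finset.card_insert_of_notMem (by simp), Finset.card_image_of_injective _
      Sum.inl_injective, Finset.card_univ, Fintype.card_fin, List.length_map] at h2
    exact h2.symm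
  have h3 := hcou hS (by omega)
  have hle : ∀ (P : Fin n ⊕ Fin 3 → Prop)
      (_ : DecidablePred (fun u : Fin n ⊕ Fin 3 => u ≠ Sum.inr 2 ∧ P u)),
      ∀ B : Finset (Fin n), (∀ v, v ∈ B ↔ P (Sum.inl v)) →
      ((S.map Prod.fst).filter (fun u => u ≠ Sum.inr 2 ∧ P u)).length ≤ B.card := by
    intro P _ B hB
    have h4 : ((S.map Prod.fst).filter (fun u => u ≠ Sum.inr 2 ∧ P u)).Nodup := hSn.filter _
    rw [← List.toFinset_card_of_nodup h4]
    have h5 : ((S.map Prod.fst).filter (fun u => u ≠ Sum.inr 2 ∧ P u)).toFinset ⊆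
        B.image Sum.inl := by
      intro u hu
      rw [List.mem_toFinset, List.mem_filter] at hu
      obtain ⟨hu1, hu2⟩ := hu
      have hu3 := of_decide_eq_true hu2
      rcases hmem u hu1 with h | ⟨v, rfl⟩
      · exact absurd h hu3.1
      · exact Finset.mem_image.2 ⟨v, (hB v).2 hu3.2, rfl⟩
    exact (Finset.card_le_card h5).trans Finset.card_image_le
  obtain ⟨BL, hBL⟩ : ∃ B : Finset (Fin n), ∀ v, v ∈ B ↔ ¬ IsL S (Sum.inl v) :=
    ⟨Finset.univ.filter (fun v => ¬ IsL S (Sum.inl v)), by simp⟩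
  obtain ⟨BR, hBR⟩ : ∃ B : Finset (Fin n), ∀ v, v ∈ B ↔ ¬ IsR S (Sum.inl v) :=
    ⟨Finset.univ.filter (fun v => ¬ IsR S (Sum.inl v)), by simp⟩
  have h7 := h3.trans (add_le_add (hle (fun u => ¬ IsL S u) _ BL hBL)
    (hle (fun u => ¬ IsR S u) _ BR hBR))
  have h6 : n / 2 + 1 ≤ BR.card ∨ n / 2 + 1 ≤ BL.card := by
    by_contra hcon
    push Not at hcon
    have : n / 2 * 2 ≤ n := Nat.div_mul_le_self n 2
    omega
  rcases h6 with h | h
  · exact ord_core hint hncx hcan hall hadj _ (fun v hv => (hBR v).1 hv) h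
  · refine ord_core hint hncx (hmir hcan) ?_ ?_ _ (fun v hv => ?_) h
    · intro v
      obtain ⟨y, hy, h⟩ := hall v
      exact ⟨_, List.mem_map.2 ⟨y, hy, rfl⟩, h⟩
    · intro u w huw
      rcases hadj u w huw with ⟨y, hy, h1, h2⟩ | ⟨y, hy, h1, h2⟩
      · exact Or.inl ⟨_, List.mem_map.2 ⟨y, hy, rfl⟩, h1, by simpa using h2⟩
      · exact Or.inr ⟨_, List.mem_map.2 ⟨y, hy, rfl⟩, h1, by simpa using h2⟩
    · rw [isR_rev]
      exact (hBL v).1 hv

end Pool.Agent.SGE.H29
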