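import Pool.Agent.Helper29_SGE.Fin
import Pool.Agent.Helper29_SGE.Ord
import Pool.Agent.Helper29_SGE.Geo
import Pool.Agent.Helper29_SGE.Cb
import Pool.Agent.Helper99_SGE.Ele
import Pool.Agent.Helper99_SGE.Per
import Pool.Agent.Helper75_SGE.Out
import Pool.Agent.Helper75_SGE.Swe
import Pool.Agent.Helper2_SGE.Sw0
import Pool.Agent.Helper36_SGE.NT0
import Pool.Agent.Helper67_SGE.SWA
import Pool.Agent.Helper67_SGE.SWB
import Pool.Agent.Helper51_SGE.Nta
import Pool.Agent.Helper51_SGE.Ntb
import Pool.Agent.Helper60_SGE.Adv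
import Pool.Agent.Helper60_SGE.Rem
import Pool.Agent.Helper18_SGE.FCE
import Pool.Agent.Helper18_SGE.PNT
import Pool.Agent.Helper18_SGE.VIS
import Pool.Agent.Helper15_SGE.Cns
import Pool.Agent.Helper20_SGE.Chd
import Pool.Agent.Helper20_SGE.Exv
import Pool.Agent.Helper20_SGE.Int
import Pool.Agent.Helper25_SGE.Cou
import Pool.Agent.Helper32_SGE.Ncx
import Pool.Agent.Helper46_SGE.Pos
import Pool.Agent.Helper56_SGE.EXP

/-!
# SGE: assembly
-/

noncomputable section

namespace Pool.Agent.SGE.H29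

open Pool.Agent.SGE

theorem sweStmt : SweStmt :=
  H75.swe (H2.sw0 H36.nt0 H99.hul) (H67.swa H51.nta H99.ang H99.fcr)
    (H67.swb H51.ntb H99.ang H99.fcr)
    (H60Adv.adv (H18.fce H99.tri) (H18.pnt H18.vis H99.hul) H99.ang)

theorem geoStmt : GeoStmt :=
  geo (H75.out H99.seg H99.per) H99.tmx sweStmt (H15.cns cb H60.rem (H20.exv H20.chd))

theorem ordStmt : OrdStmt := ord geoStmt (H25.cou cb) (H20.int cb) H32.ncx0 mir cb

/-- the universal point subset -/
theorem uniStmt : UniStmt := uni ordStmt H56.exp H46.posi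

/-- pairs -/
theorem paiStmt : PaiStmt := pai ordStmt H56.exp H46.posi

/-- the final statement -/
theorem finStmt : FinStmt := fin ordStmt H56.exp H46.posi

end Pool.Agent.SGE.H29
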