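import Pool.Agent.SGE.Stmts

/-!
# SGE, row UNI: the universal point subset
-/

noncomputable section

namespace Pool.Agent.SGE.H29

open Pool.Agent.SGE

/-- the common columns and levels -/
def col (n i : ℕ) : ℕ := 4 * (n + 1) * (i + 1)

/-- the base -/
def kk (n : ℕ) : ℕ := 8 * (4 * (n + 1) ^ 2 + 1)

theorem nc_nat {V : Type} {G : SimpleGraph V} {x y : V → ℝ} {x' y' : V → ℕ}
    (hx : ∀ u w, x' u < x' w ↔ x u < x w) (hy : ∀ u w, y' u < y' w ↔ y u < y w) (h : NC G x y) :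
    NC G x' y' := by
  intro a₁ b₁ a₂ b₂ h1 h2 h3 h4 h5
  rw [hx, hx, hx, hx]
  exact h a₁ b₁ a₂ b₂ h1 h2 ((hy _ _).1 h3) ((hy _ _).1 h4) ((hy _ _).1 h5)

theorem inj_nat {V : Type} {x : V → ℝ} {x' : V → ℕ} (hx : ∀ u w, x' u < x' w ↔ x u < x w)
    (hi : Function.Injective x) : Function.Injective x' := by
  intro u w h
  apply hi
  apply le_antisymm
  · by_contra h1
    have := (hx w u).2 (not_le.1 h1)
    omega
  · by_contra h1
    have := (hx u w).2 (not_le.1 h1)
    omega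

/-- UNI -/
theorem uni (hord : OrdStmt) (hexp : ExpStmt) (hpos : PosStmt) : UniStmt := by
  intro n hn
  have hq : ∀ i j : ℕ, col n i = col n j → i = j := by
    intro i j h
    unfold col at h
    have h1 : i + 1 = j + 1 := Nat.eq_of_mul_eq_mul_left (by omega) h
    omega
  refine ⟨(Finset.range (n / 2 + 1)).image
    fun i => (((col n i : ℕ) : ℝ), ((kk n : ℕ) : ℝ) ^ col n i), ?_, ?_⟩
  · rw [Finset.card_image_of_injective, Finset.card_range]
    intro i j h
    have h1 := congrArg Prod.fst h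
    exact hq i j (Nat.cast_injective h1)
  · intro G hG
    obtain ⟨x, y, hx, hy, hnc, A, hA, hAo⟩ := hord hn G hG
    obtain ⟨x', y', h1, h2, -, h4, h5, h6⟩ := hpos n (Fintype.card_fin n).le x y hx hy A hAo 1
      le_rfl (by norm_num)
    refine ⟨pt (kk n) x' y', hexp G (kk n) (4 * (n + 1) ^ 2) x' y' (inj_nat h1 hx) (inj_nat h2 hy)
      (fun v => (h5 v).1) (by unfold kk; omega) (nc_nat h1 h2 hnc), ?_⟩
    intro q hq'
    obtain ⟨i, hi, rfl⟩ := Finset.mem_image.1 hq'
    have h7 : col n i ∈ A.image x' := by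
      rw [h6, hA]
      exact Finset.mem_image.2 ⟨i, hi, rfl⟩
    obtain ⟨v, hv, hv'⟩ := Finset.mem_image.1 h7
    refine ⟨v, ?_⟩
    unfold pt
    rw [← h4 v hv, hv']

end Pool.Agent.SGE.H29
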