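import Pool.Agent.Helper29_SGE.Pai

/-!
# SGE: the final statement, several graphs and a fixed common set
-/

noncomputable section

namespace Pool.Agent.SGE.H29

open Pool.Agent.SGE

/-- rescaled positions -/
def rs (M ρ : ℕ) {V : Type} (B : Finset V) (x : V → ℕ) (v : V) : ℕ :=
  open Classical in M * x v + if v ∈ B then 0 else ρ

theorem rs_lt {M ρ : ℕ} (hρ : ρ < M) {V : Type} (B : Finset V) (x : V → ℕ) (u w : V)
    (h : x u < x w) : rs M ρ B x u < rs M ρ B x w := by
  classical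
  unfold rs
  have h1 : M * (x u + 1) ≤ M * x w := Nat.mul_le_mul_left M h
  rw [mul_add, mul_one] at h1
  split_ifs <;> omega

theorem rs_lt_iff {M ρ : ℕ} (hρ : ρ < M) {V : Type} (B : Finset V) (x : V → ℕ)
    (u w : V) (hinj : x u = x w → u = w) : rs M ρ B x u < rs M ρ B x w ↔ x u < x w := by
  constructor
  · intro h
    rcases lt_trichotomy (x u) (x w) with h1 | h1 | h1
    · exact h1
    · rw [hinj h1] at h
      exact absurd h (lt_irrefl _)
    · exact absurd (rs_lt hρ B x w u h1) (lt_asymm h)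
  · exact rs_lt hρ B x u w

theorem side2 (hord : OrdStmt) (hpos : PosStmt) {N m M ρ : ℕ} (hm : 0 < m) (hmN : m ≤ N)
    (hρ0 : 0 < ρ) (hρ : ρ < M) (G : SimpleGraph (Fin N))
    (hG : ∃ f, Draw G f) (hs : G.support.ncard ≤ m) :
    ∃ (A B : Finset (Fin N)) (X Y : Fin N → ℕ), (∀ u w, G.Adj u w → u ∈ A) ∧ B ⊆ A ∧
      A.card = m ∧ B.card = m / 2 + 1 ∧ Set.InjOn X A ∧ Set.InjOn Y A ∧ (∀ v ∈ B, X v = Y v) ∧
      (∀ v ∈ A, v ∉ B → X v % M = ρ ∧ Y v % M = ρ) ∧ (∀ v ∈ A, X v ≤ M * (4 * (N + 1) ^ 2) + ρ) ∧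
      (B.image X = (Finset.range (m / 2 + 1)).image (fun i => M * col N i)) ∧
      NC G X Y := by
  classical
  obtain ⟨A, B, X, Y, a1, a2, a3, a4, a5, a6, a7, a8, a9, a10, a11⟩ :=
    side hord hpos (k := m / 2 + 1) (n := N) (r := 1) hm hmN hmN le_rfl le_rfl (by norm_num) G hG hs
  have hsup : ∀ u w, G.Adj u w → u ∈ A ∧ w ∈ A := fun u w h => ⟨a1 u w h, a1 w u h.symm⟩
  refine ⟨A, B, rs M ρ B X, rs M ρ B Y, a1, a2, a3, a4, ?_, ?_, ?_, ?_, ?_, ?_, ?_⟩
  · intro u hu w hw h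
    apply a5 hu hw
    rcases lt_trichotomy (X u) (X w) with h1 | h1 | h1
    · exact absurd h (rs_lt hρ B X u w h1).ne
    · exact h1
    · exact absurd h (rs_lt hρ B X w u h1).ne'
  · intro u hu w hw h
    apply a6 hu hw
    rcases lt_trichotomy (Y u) (Y w) with h1 | h1 | h1
    · exact absurd h (rs_lt hρ B Y u w h1).ne
    · exact h1
    · exact absurd h (rs_lt hρ B Y w u h1).ne'
  · intro v hv
    unfold rs
    rw [a7 v hv]
  · intro v hv hvB
    unfold rs
    rw [if_neg hvB, Nat.mul_add_mod, Nat.mul_add_mod]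
    exact ⟨Nat.mod_eq_of_lt hρ, Nat.mod_eq_of_lt hρ⟩
  · intro v hv
    unfold rs
    have h1 := Nat.mul_le_mul_left M (a9 v hv)
    split_ifs <;> omega
  · have e1 : B.image (rs M ρ B X) = (B.image X).image (fun i => M * i) := by
      rw [Finset.image_image]
      apply Finset.image_congr
      intro v hv
      unfold rs
      rw [if_pos (Finset.mem_coe.1 hv), add_zero]
      rfl
    rw [e1, a10, Finset.image_image]
    rfl
  · intro a₁ b₁ a₂ b₂ g1 g2 g3 g4 g5
    have iX : ∀ u ∈ A, ∀ w ∈ A, (rs M ρ B X u < rs M ρ B X w ↔ X u < X w) := fun u hu w hw =>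
      rs_lt_iff hρ B X u w (fun h => a5 hu hw h)
    have iY : ∀ u ∈ A, ∀ w ∈ A, (rs M ρ B Y u < rs M ρ B Y w ↔ Y u < Y w) := fun u hu w hw =>
      rs_lt_iff hρ B Y u w (fun h => a6 hu hw h)
    obtain ⟨h1, h2⟩ := hsup _ _ g1
    obtain ⟨h3, h4⟩ := hsup _ _ g2
    rw [iX _ h1 _ h3, iX _ h3 _ h2, iX _ h2 _ h3, iX _ h3 _ h1]
    exact a11 a₁ b₁ a₂ b₂ g1 g2 ((iY _ h1 _ h2).1 g3) ((iY _ h3 _ h2).1 g4) ((iY _ h2 _ h4).1 g5)

/-- the final statement -/
def FinStmt : Prop := ∀ r m N : ℕ, 0 < r → 0 < m → r * m ≤ N + (r - 1) * (m / 2 + 1) →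
  ∃ Q : Finset (ℝ × ℝ), Q.card = m / 2 + 1 ∧ ∀ G : Fin r → SimpleGraph (Fin N),
    (∀ i, ∃ f, Draw (G i) f) → (∀ i, (G i).support.ncard ≤ m) →
    ∃ P : Finset (ℝ × ℝ), Q ⊆ P ∧ P.card = N ∧ ∀ i, ∃ f, Draw (G i) f ∧ ∀ v, f v ∈ P

/-- FIN -/
theorem fin (hord : OrdStmt) (hexp : ExpStmt) (hpos : PosStmt) : FinStmt := by
  intro r m N hr hm hN
  classical
  set k := m / 2 + 1 with hkdef
  have hkm : k ≤ m := by omega
  obtain ⟨r', rfl⟩ : ∃ r', r = r' + 1 := ⟨r - 1, by omega⟩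
  rw [Nat.add_sub_cancel, add_mul, one_mul] at hN
  have hmN : m ≤ N := by
    have := Nat.mul_le_mul_left r' hkm
    omega
  set M := r' + 3 with hMdef
  set W := M * (4 * (N + 1) ^ 2 + 2) with hWdef
  set K := 8 * (W + 1) with hKdef
  set S : Finset (ℕ × ℕ) := (Finset.range k).image fun i => (M * col N i, M * col N i) with hSdef
  set pr : ℕ × ℕ → ℝ × ℝ := fun p => ((p.1 : ℝ), (K : ℝ) ^ p.2) with hpr
  have hcoli : ∀ i j : ℕ, M * col N i = M * col N j → i = j := by
    intro i j h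
    have h0 : col N i = col N j := Nat.eq_of_mul_eq_mul_left (by omega) h
    unfold col at h0
    have h1 : i + 1 = j + 1 := Nat.eq_of_mul_eq_mul_left (by omega) h0
    omega
  have cS : S.card = k := by
    rw [hSdef, Finset.card_image_of_injective, Finset.card_range]
    intro i j h
    exact hcoli i j (congrArg Prod.fst h)
  have hS : ∀ p ∈ S, p.1 % M = 0 ∧ p.2 % M = 0 ∧ p.1 = p.2 := by
    intro p hp
    obtain ⟨i, -, rfl⟩ := Finset.mem_image.1 hp
    exact ⟨Nat.mul_mod_right _ _, Nat.mul_mod_right _ _, rfl⟩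
  refine ⟨S.image pr, ?_, ?_⟩
  · rw [Finset.card_image_of_injOn, cS]
    intro p hp q hq h
    have h1 : p.1 = q.1 := Nat.cast_injective (congrArg Prod.fst h)
    have e1 := (hS p hp).2.2
    have e2 := (hS q hq).2.2
    exact Prod.ext h1 (by rw [← e1, ← e2, h1])
  intro G hG hsup
  have hside := fun i : Fin (r' + 1) => side2 hord hpos (M := M) (ρ := i + 1) hm hmN (by omega)
    (by omega) (G i) (hG i) (hsup i)
  choose A B X Y a1 a2 a3 a4 a5 a6 a7 a8 a9 a10 a11 using hside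
  set U : Fin (r' + 1) → Finset (ℕ × ℕ) := fun i => (A i \ B i).image fun v => (X i v, Y i v)
    with hUdef
  set s := N - (k + (r' + 1) * (m - k)) with hsdef
  set U₃ : Finset (ℕ × ℕ) := (Finset.range s).image
    fun i => (M * i + (r' + 2), M * i + (r' + 2)) with hU₃def
  have hU : ∀ i, ∀ p ∈ U i, p.1 % M = i + 1 ∧ p.2 % M = i + 1 := by
    intro i p hp
    obtain ⟨v, hv, rfl⟩ := Finset.mem_image.1 hp
    exact a8 i v (Finset.mem_sdiff.1 hv).1 (Finset.mem_sdiff.1 hv).2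
  have hU₃ : ∀ p ∈ U₃, p.1 % M = r' + 2 ∧ p.2 % M = r' + 2 ∧ p.1 = p.2 := by
    intro p hp
    obtain ⟨i, -, rfl⟩ := Finset.mem_image.1 hp
    refine ⟨?_, ?_, rfl⟩ <;> simp only [Nat.mul_add_mod] <;> exact Nat.mod_eq_of_lt (by omega)
  have cU : ∀ i, (U i).card = m - k := by
    intro i
    simp only [hUdef]
    rw [Finset.card_image_of_injOn, Finset.card_sdiff_of_subset (a2 i), a3, a4]
    intro u hu w hw h
    exact a5 i (Finset.mem_coe.2 (Finset.mem_sdiff.1 (Finset.mem_coe.1 hu)).1)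
      (Finset.mem_coe.2 (Finset.mem_sdiff.1 (Finset.mem_coe.1 hw)).1) (congrArg Prod.fst h)
  have cU₃ : U₃.card = s := by
    rw [hU₃def, Finset.card_image_of_injective, Finset.card_range]
    intro i j h
    have h1 : M * i + (r' + 2) = M * j + (r' + 2) := congrArg Prod.fst h
    exact Nat.eq_of_mul_eq_mul_left (by omega : 0 < M) (by omega)
  have cB : (Finset.univ.biUnion U).card = (r' + 1) * (m - k) := by
    rw [Finset.card_biUnion]
    · rw [Finset.sum_congr rfl (fun i _ => cU i), Finset.sum_const, Finset.card_univ,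
        Fintype.card_fin, smul_eq_mul]
    · intro i _ j _ hij
      refine Finset.disjoint_left.2 fun p h1 h2 => hij ?_
      have e1 := (hU i p h1).1
      have e2 := (hU j p h2).1
      apply Fin.ext
      omega
  have d1 : Disjoint S (Finset.univ.biUnion U) := Finset.disjoint_left.2 fun p h1 h2 => by
    obtain ⟨i, -, h3⟩ := Finset.mem_biUnion.1 h2
    have e1 := (hS p h1).1
    have e2 := (hU i p h3).1
    omega
  have d2 : Disjoint (S ∪ Finset.univ.biUnion U) U₃ := Finset.disjoint_left.2 fun p h1 h2 => by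
    have e0 := (hU₃ p h2).1
    rcases Finset.mem_union.1 h1 with h | h
    · have e1 := (hS p h).1
      omega
    · obtain ⟨i, -, h3⟩ := Finset.mem_biUnion.1 h
      have e2 := (hU i p h3).1
      have := i.2
      omega
  have hsum : k + (r' + 1) * (m - k) ≤ N := by
    obtain ⟨d, hd⟩ : ∃ d, m = k + d := ⟨m - k, by omega⟩
    rw [hd, Nat.add_sub_cancel_left]
    rw [hd, mul_add] at hN
    rw [add_mul, one_mul]
    omega
  set Ps := S ∪ Finset.univ.biUnion U ∪ U₃ with hPsdef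
  have cP : Ps.card = N := by
    rw [hPsdef, Finset.card_union_of_disjoint d2, Finset.card_union_of_disjoint d1, cS, cB, cU₃]
    omega
  -- different positions have different coordinates
  have hcl : ∀ p ∈ Ps, (p ∈ S ∧ p.1 % M = 0 ∧ p.2 % M = 0) ∨
      (∃ i, p ∈ U i ∧ p.1 % M = (i : ℕ) + 1 ∧ p.2 % M = (i : ℕ) + 1) ∨
      (p ∈ U₃ ∧ p.1 % M = r' + 2 ∧ p.2 % M = r' + 2) := by
    intro p hp
    rcases Finset.mem_union.1 hp with h | h
    · rcases Finset.mem_union.1 h with h | h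
      · exact Or.inl ⟨h, (hS p h).1, (hS p h).2.1⟩
      · obtain ⟨i, -, h3⟩ := Finset.mem_biUnion.1 h
        exact Or.inr (Or.inl ⟨i, h3, hU i p h3⟩)
    · exact Or.inr (Or.inr ⟨h, (hU₃ p h).1, (hU₃ p h).2.1⟩)
  have hfst : ∀ p ∈ Ps, ∀ q ∈ Ps, p.1 = q.1 → p = q := by
    intro p hp q hq h
    rcases hcl p hp with ⟨h1, h1', -⟩ | ⟨i, h1, h1', -⟩ | ⟨h1, h1', -⟩ <;>
    rcases hcl q hq with ⟨h2, h2', -⟩ | ⟨j, h2, h2', -⟩ | ⟨h2, h2', -⟩
    · have e1 := (hS p h1).2.2
      have e2 := (hS q h2).2.2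
      exact Prod.ext h (by rw [← e1, ← e2, h])
    · exfalso; rw [h] at h1'; omega
    · exfalso; rw [h] at h1'; omega
    · exfalso; rw [h] at h1'; omega
    · have hij : i = j := by
        apply Fin.ext
        rw [h] at h1'
        omega
      subst hij
      obtain ⟨u, hu, rfl⟩ := Finset.mem_image.1 h1
      obtain ⟨w, hw, rfl⟩ := Finset.mem_image.1 h2
      have e1 : u = w := a5 i (Finset.mem_coe.2 (Finset.mem_sdiff.1 hu).1)
        (Finset.mem_coe.2 (Finset.mem_sdiff.1 hw).1) h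
      rw [e1]
    · exfalso; rw [h] at h1'; have := i.2; omega
    · exfalso; rw [h] at h1'; omega
    · exfalso; rw [h] at h1'; have := j.2; omega
    · have e1 := (hU₃ p h1).2.2
      have e2 := (hU₃ q h2).2.2
      exact Prod.ext h (by rw [← e1, ← e2, h])
  have hsnd : ∀ p ∈ Ps, ∀ q ∈ Ps, p.2 = q.2 → p = q := by
    intro p hp q hq h
    rcases hcl p hp with ⟨h1, -, h1'⟩ | ⟨i, h1, -, h1'⟩ | ⟨h1, -, h1'⟩ <;>
    rcases hcl q hq with ⟨h2, -, h2'⟩ | ⟨j, h2, -, h2'⟩ | ⟨h2, -, h2'⟩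
    · have e1 := (hS p h1).2.2
      have e2 := (hS q h2).2.2
      exact Prod.ext (by rw [e1, e2, h]) h
    · exfalso; rw [h] at h1'; omega
    · exfalso; rw [h] at h1'; omega
    · exfalso; rw [h] at h1'; omega
    · have hij : i = j := by
        apply Fin.ext
        rw [h] at h1'
        omega
      subst hij
      obtain ⟨u, hu, rfl⟩ := Finset.mem_image.1 h1
      obtain ⟨w, hw, rfl⟩ := Finset.mem_image.1 h2
      have e1 : u = w := a6 i (Finset.mem_coe.2 (Finset.mem_sdiff.1 hu).1)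
        (Finset.mem_coe.2 (Finset.mem_sdiff.1 hw).1) h
      rw [e1]
    · exfalso; rw [h] at h1'; have := i.2; omega
    · exfalso; rw [h] at h1'; omega
    · exfalso; rw [h] at h1'; have := j.2; omega
    · have e1 := (hU₃ p h1).2.2
      have e2 := (hU₃ q h2).2.2
      exact Prod.ext (by rw [e1, e2, h]) h
  have hbin : ∀ i, ∀ v ∈ B i, (X i v, Y i v) ∈ S := by
    intro i v hv
    have h4 : X i v ∈ (Finset.range k).image (fun j => M * col N j) := by
      rw [← a10 i]
      exact Finset.mem_image_of_mem _ hv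
    obtain ⟨j, hj, hj'⟩ := Finset.mem_image.1 h4
    refine Finset.mem_image.2 ⟨j, hj, ?_⟩
    rw [← a7 i v hv, ← hj']
  have hin : ∀ i, ∀ v ∈ A i, (X i v, Y i v) ∈ Ps := by
    intro i v hv
    by_cases hB : v ∈ B i
    · exact Finset.mem_union_left _ (Finset.mem_union_left _ (hbin i v hB))
    · refine Finset.mem_union_left _ (Finset.mem_union_right _ (Finset.mem_biUnion.2
        ⟨i, Finset.mem_univ _, Finset.mem_image.2 ⟨v, Finset.mem_sdiff.2 ⟨hv, hB⟩, rfl⟩⟩))
  have hMW : M * (4 * (N + 1) ^ 2) + 2 * M = W := by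
    rw [hWdef]
    ring
  have hW : ∀ p ∈ Ps, p.1 ≤ W := by
    intro p hp
    rcases Finset.mem_union.1 hp with h | h
    · rcases Finset.mem_union.1 h with h | h
      · -- the common points: they are positions of the first graph
        obtain ⟨j, hj, rfl⟩ := Finset.mem_image.1 h
        have h4 : M * col N j ∈ (B 0).image (X 0) := by
          rw [a10 0]
          exact Finset.mem_image_of_mem _ hj
        obtain ⟨v, hv, hv'⟩ := Finset.mem_image.1 h4
        have h5 := a9 0 v (a2 0 hv)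
        simp only
        rw [← hv']
        have h6 : ((0 : Fin (r' + 1)) : ℕ) = 0 := rfl
        rw [h6] at h5
        omega
      · obtain ⟨i, -, h3⟩ := Finset.mem_biUnion.1 h
        obtain ⟨v, hv, rfl⟩ := Finset.mem_image.1 h3
        have h5 := a9 i v (Finset.mem_sdiff.1 hv).1
        have := i.2
        simp only
        omega
    · obtain ⟨i, hi, rfl⟩ := Finset.mem_image.1 h
      have h6 : i < s := Finset.mem_range.1 hi
      have h7 : i ≤ 4 * (N + 1) ^ 2 := by
        have h8 : N + 1 ≤ (N + 1) ^ 2 := Nat.le_self_pow (by norm_num) _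
        omega
      have h9 := Nat.mul_le_mul_left M h7
      simp only
      omega
  refine ⟨Ps.image pr, ?_, ?_, ?_⟩
  · exact Finset.image_subset_image (Finset.subset_union_left.trans Finset.subset_union_left)
  · rw [Finset.card_image_of_injOn, cP]
    intro p hp q hq h
    exact hfst p (Finset.mem_coe.1 hp) q (Finset.mem_coe.1 hq)
      (Nat.cast_injective (congrArg Prod.fst h))
  intro i
  obtain ⟨g, hg⟩ := Finset.exists_equiv_extend_of_card_eq (t := Ps) (s := A i)
    (f := fun v => (X i v, Y i v)) (by rw [Fintype.card_fin, cP])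
    (by
      intro p hp
      obtain ⟨v, hv, rfl⟩ := Finset.mem_image.1 hp
      exact hin i v hv)
    (by
      intro u hu w hw h
      exact a5 i hu hw (congrArg Prod.fst h))
  refine ⟨pt K (fun v => (g v : ℕ × ℕ).1) (fun v => (g v : ℕ × ℕ).2), ?_, ?_⟩
  · refine hexp (G i) K W _ _ ?_ ?_ (fun v => hW _ (g v).2) le_rfl ?_
    · intro u w h
      apply g.injective
      apply Subtype.ext
      exact hfst _ (g u).2 _ (g w).2 h
    · intro u w h
      apply g.injective
      apply Subtype.ext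
      exact hsnd _ (g u).2 _ (g w).2 h
    · intro a₁ b₁ a₂ b₂ g1 g2 g3 g4 g5
      simp only at g3 g4 g5 ⊢
      rw [hg _ (a1 i _ _ g1), hg _ (a1 i _ _ g1.symm)] at g3
      rw [hg _ (a1 i _ _ g2), hg _ (a1 i _ _ g1.symm)] at g4
      rw [hg _ (a1 i _ _ g1.symm), hg _ (a1 i _ _ g2.symm)] at g5
      rw [hg _ (a1 i _ _ g1), hg _ (a1 i _ _ g1.symm), hg _ (a1 i _ _ g2)]
      exact a11 i a₁ b₁ a₂ b₂ g1 g2 g3 g4 g5
  · intro v
    exact Finset.mem_image.2 ⟨g v, (g v).2, rfl⟩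

end Pool.Agent.SGE.H29
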