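import Pool.Agent.Helper29_SGE.Uni

/-!
# SGE, row PAI: pairs of planar graphs with isolated vertices
-/

noncomputable section

namespace Pool.Agent.SGE.H29

open Pool.Agent.SGE

theorem draw_comap {V W : Type} {G : SimpleGraph V} {f : V → ℝ × ℝ} (h : Draw G f) (e : W → V)
    (he : Function.Injective e) : Draw (G.comap e) (f ∘ e) where
  inj := h.inj.comp he
  cross := by
    intro a b c d h1 h2 h3
    refine h.cross (e a) (e b) (e c) (e d) h1 h2 fun h4 => h3 ?_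
    rw [Sym2.eq_iff] at h4 ⊢
    rcases h4 with ⟨h5, h6⟩ | ⟨h5, h6⟩
    · exact Or.inl ⟨he h5, he h6⟩
    · exact Or.inr ⟨he h5, he h6⟩
  vert := by
    intro v a b h1 h2
    rcases h.vert (e v) (e a) (e b) h1 h2 with h3 | h3
    · exact Or.inl (he h3)
    · exact Or.inr (he h3)

theorem side (hord : OrdStmt) (hpos : PosStmt) {N m k n r : ℕ} (hm : 0 < m) (hmN : m ≤ N)
    (hmn : m ≤ n) (hk : k ≤ m / 2 + 1) (hr1 : 1 ≤ r) (hr3 : r ≤ 3) (G : SimpleGraph (Fin N))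
    (hG : ∃ f, Draw G f) (hs : G.support.ncard ≤ m) :
    ∃ (A B : Finset (Fin N)) (X Y : Fin N → ℕ), (∀ u w, G.Adj u w → u ∈ A) ∧ B ⊆ A ∧
      A.card = m ∧ B.card = k ∧ Set.InjOn X A ∧ Set.InjOn Y A ∧ (∀ v ∈ B, X v = Y v) ∧
      (∀ v ∈ A, v ∉ B → X v % 4 = r ∧ Y v % 4 = r) ∧ (∀ v ∈ A, X v ≤ 4 * (n + 1) ^ 2) ∧
      (B.image X = (Finset.range k).image (col n)) ∧
      NC G X Y := by
  classical
  obtain ⟨f, hf⟩ := hG
  obtain ⟨A, hA, hAm⟩ := Finset.exists_superset_card_eq (s := G.support.toFinite.toFinset)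
    (n := m) (by rw [← Set.ncard_eq_toFinset_card]; exact hs) (by rw [Fintype.card_fin]; exact hmN)
  let e : Fin m → Fin N := A.orderEmbOfFin hAm
  have he : Function.Injective e := (A.orderEmbOfFin hAm).injective
  have heA : ∀ i, e i ∈ A := fun i => A.orderEmbOfFin_mem hAm i
  have hAe : ∀ v ∈ A, ∃ i, e i = v := by
    intro v hv
    have h1 : v ∈ Set.range (A.orderEmbOfFin hAm) := by
      rw [A.range_orderEmbOfFin hAm]
      exact hv
    exact h1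
  have hsup : ∀ u w, G.Adj u w → u ∈ A := by
    intro u w h
    apply hA
    rw [Set.Finite.mem_toFinset]
    exact ⟨w, h⟩
  obtain ⟨x, y, hx, hy, hnc, A₀, hA₀, hAo⟩ := hord hm (G.comap e) ⟨f ∘ e, draw_comap hf e he⟩
  obtain ⟨B₀, hB₀, hB₀k⟩ := Finset.exists_subset_card_eq (s := A₀) (n := k) (by rw [hA₀]; exact hk)
  obtain ⟨x', y', h1, h2, h3, h4, h5, h6⟩ := hpos n (by rw [Fintype.card_fin]; exact hmn) x y hx hy
    B₀ (fun u hu w hw => hAo u (hB₀ hu) w (hB₀ hw)) r hr1 hr3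
  have hx' := inj_nat h1 hx
  have hy' := inj_nat h2 hy
  have hnc' := nc_nat h1 h2 hnc
  have hX : ∀ i, Function.extend e x' (fun _ => 0) (e i) = x' i := fun i => he.extend_apply _ _ i
  have hY : ∀ i, Function.extend e y' (fun _ => 0) (e i) = y' i := fun i => he.extend_apply _ _ i
  refine ⟨A, B₀.image e, Function.extend e x' (fun _ => 0), Function.extend e y' (fun _ => 0),
    hsup, ?_, hAm, ?_, ?_, ?_, ?_, ?_, ?_, ?_, ?_⟩
  · intro v hv
    obtain ⟨i, -, rfl⟩ := Finset.mem_image.1 hv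
    exact heA i
  · rw [Finset.card_image_of_injective _ he, hB₀k]
  · intro u hu w hw h
    obtain ⟨i, rfl⟩ := hAe u hu
    obtain ⟨j, rfl⟩ := hAe w hw
    rw [hX, hX] at h
    rw [hx' h]
  · intro u hu w hw h
    obtain ⟨i, rfl⟩ := hAe u hu
    obtain ⟨j, rfl⟩ := hAe w hw
    rw [hY, hY] at h
    rw [hy' h]
  · intro v hv
    obtain ⟨i, hi, rfl⟩ := Finset.mem_image.1 hv
    rw [hX, hY]
    exact h4 i hi
  · intro v hv hvB
    obtain ⟨i, rfl⟩ := hAe v hv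
    rw [hX, hY]
    exact h3 i fun hi => hvB (Finset.mem_image_of_mem _ hi)
  · intro v hv
    obtain ⟨i, rfl⟩ := hAe v hv
    rw [hX]
    exact (h5 i).1
  · rw [Finset.image_image]
    have e1 : Function.extend e x' (fun _ => 0) ∘ e = x' := by
      funext i
      exact hX i
    rw [e1, h6, hB₀k]
    rfl
  · intro a₁ b₁ a₂ b₂ g1 g2 g3 g4 g5
    obtain ⟨i₁, rfl⟩ := hAe a₁ (hsup _ _ g1)
    obtain ⟨j₁, rfl⟩ := hAe b₁ (hsup _ _ g1.symm)
    obtain ⟨i₂, rfl⟩ := hAe a₂ (hsup _ _ g2)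
    obtain ⟨j₂, rfl⟩ := hAe b₂ (hsup _ _ g2.symm)
    rw [hY, hY] at g3 g4 g5
    rw [hX, hX, hX]
    exact hnc' i₁ j₁ i₂ j₂ g1 g2 g3 g4 g5

/-- PAI -/
theorem pai (hord : OrdStmt) (hexp : ExpStmt) (hpos : PosStmt) : PaiStmt := by
  intro N m₁ m₂ hm₁ hm hN G₁ G₂ hG₁ hG₂ hs₁ hs₂
  classical
  have hm₂N : m₂ ≤ N := by omega
  set k := m₁ / 2 + 1 with hkdef
  obtain ⟨A₁, B₁, X₁, Y₁, a1, a2, a3, a4, a5, a6, a7, a8, a9, a10, a11⟩ :=
    side hord hpos (k := k) (n := N) (r := 1) hm₁ (by omega) (by omega) le_rfl le_rfl (by norm_num)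
      G₁ hG₁ hs₁
  obtain ⟨A₂, B₂, X₂, Y₂, b1, b2, b3, b4, b5, b6, b7, b8, b9, b10, b11⟩ :=
    side hord hpos (k := k) (n := N) (r := 2) (lt_of_lt_of_le hm₁ hm) hm₂N hm₂N
      (by omega) (by norm_num) (by norm_num) G₂ hG₂ hs₂
  -- the positions
  set S : Finset (ℕ × ℕ) := (Finset.range k).image fun i => (col N i, col N i) with hSdef
  set U₁ : Finset (ℕ × ℕ) := (A₁ \ B₁).image fun v => (X₁ v, Y₁ v) with hU₁def
  set U₂ : Finset (ℕ × ℕ) := (A₂ \ B₂).image fun v => (X₂ v, Y₂ v) with hU₂def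
  set U₃ : Finset (ℕ × ℕ) := (Finset.range (N - (m₁ + m₂ - k))).image
    fun i => (4 * i + 3, 4 * i + 3) with hU₃def
  have hcol4 : ∀ i, col N i % 4 = 0 := by
    intro i
    unfold col
    rw [mul_assoc, Nat.mul_mod_right]
  have hcoli : ∀ i j : ℕ, col N i = col N j → i = j := by
    intro i j h
    unfold col at h
    have h1 : i + 1 = j + 1 := Nat.eq_of_mul_eq_mul_left (by omega) h
    omega
  have hS : ∀ p ∈ S, p.1 % 4 = 0 ∧ p.2 % 4 = 0 ∧ p.1 = p.2 := by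
    intro p hp
    obtain ⟨i, -, rfl⟩ := Finset.mem_image.1 hp
    exact ⟨hcol4 i, hcol4 i, rfl⟩
  have hU₁ : ∀ p ∈ U₁, p.1 % 4 = 1 ∧ p.2 % 4 = 1 := by
    intro p hp
    obtain ⟨v, hv, rfl⟩ := Finset.mem_image.1 hp
    exact a8 v (Finset.mem_sdiff.1 hv).1 (Finset.mem_sdiff.1 hv).2
  have hU₂ : ∀ p ∈ U₂, p.1 % 4 = 2 ∧ p.2 % 4 = 2 := by
    intro p hp
    obtain ⟨v, hv, rfl⟩ := Finset.mem_image.1 hp
    exact b8 v (Finset.mem_sdiff.1 hv).1 (Finset.mem_sdiff.1 hv).2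
  have hU₃ : ∀ p ∈ U₃, p.1 % 4 = 3 ∧ p.2 % 4 = 3 ∧ p.1 = p.2 := by
    intro p hp
    obtain ⟨i, -, rfl⟩ := Finset.mem_image.1 hp
    exact ⟨by simp only; omega, by simp only; omega, rfl⟩
  have d1 : Disjoint S U₁ := Finset.disjoint_left.2 fun p h1 h2 => by
    have := (hS p h1).1; have := (hU₁ p h2).1; omega
  have d2 : Disjoint (S ∪ U₁) U₂ := Finset.disjoint_left.2 fun p h1 h2 => by
    have := (hU₂ p h2).1
    rcases Finset.mem_union.1 h1 with h | h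
    · have := (hS p h).1; omega
    · have := (hU₁ p h).1; omega
  have d3 : Disjoint (S ∪ U₁ ∪ U₂) U₃ := Finset.disjoint_left.2 fun p h1 h2 => by
    have := (hU₃ p h2).1
    rcases Finset.mem_union.1 h1 with h | h
    · rcases Finset.mem_union.1 h with h | h
      · have := (hS p h).1; omega
      · have := (hU₁ p h).1; omega
    · have := (hU₂ p h).1; omega
  have cS : S.card = k := by
    rw [hSdef, Finset.card_image_of_injective, Finset.card_range]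
    intro i j h
    exact hcoli i j (congrArg Prod.fst h)
  have cU₁ : U₁.card = m₁ - k := by
    rw [hU₁def, Finset.card_image_of_injOn, Finset.card_sdiff_of_subset a2, a3, a4]
    intro u hu w hw h
    exact a5 (Finset.mem_coe.2 (Finset.mem_sdiff.1 (Finset.mem_coe.1 hu)).1)
      (Finset.mem_coe.2 (Finset.mem_sdiff.1 (Finset.mem_coe.1 hw)).1) (congrArg Prod.fst h)
  have cU₂ : U₂.card = m₂ - k := by
    rw [hU₂def, Finset.card_image_of_injOn, Finset.card_sdiff_of_subset b2, b3, b4]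
    intro u hu w hw h
    exact b5 (Finset.mem_coe.2 (Finset.mem_sdiff.1 (Finset.mem_coe.1 hu)).1)
      (Finset.mem_coe.2 (Finset.mem_sdiff.1 (Finset.mem_coe.1 hw)).1) (congrArg Prod.fst h)
  have cU₃ : U₃.card = N - (m₁ + m₂ - k) := by
    rw [hU₃def, Finset.card_image_of_injective, Finset.card_range]
    intro i j h
    have h1 : 4 * i + 3 = 4 * j + 3 := congrArg Prod.fst h
    omega
  have hk1 : k ≤ m₁ := by
    have h1 := Finset.card_le_card a2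
    rw [a3, a4] at h1
    exact h1
  have cP : (S ∪ U₁ ∪ U₂ ∪ U₃).card = N := by
    rw [Finset.card_union_of_disjoint d3, Finset.card_union_of_disjoint d2,
      Finset.card_union_of_disjoint d1, cS, cU₁, cU₂, cU₃]
    omega
  set Ps := S ∪ U₁ ∪ U₂ ∪ U₃ with hPsdef
  -- different positions have different coordinates
  have hfst : ∀ p ∈ Ps, ∀ q ∈ Ps, p.1 = q.1 → p = q := by
    have hcl : ∀ p ∈ Ps, (p ∈ S ∧ p.1 % 4 = 0) ∨ (p ∈ U₁ ∧ p.1 % 4 = 1) ∨
        (p ∈ U₂ ∧ p.1 % 4 = 2) ∨ (p ∈ U₃ ∧ p.1 % 4 = 3) := by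
      intro p hp
      rcases Finset.mem_union.1 hp with h | h
      · rcases Finset.mem_union.1 h with h | h
        · rcases Finset.mem_union.1 h with h | h
          · exact Or.inl ⟨h, (hS p h).1⟩
          · exact Or.inr (Or.inl ⟨h, (hU₁ p h).1⟩)
        · exact Or.inr (Or.inr (Or.inl ⟨h, (hU₂ p h).1⟩))
      · exact Or.inr (Or.inr (Or.inr ⟨h, (hU₃ p h).1⟩))
    intro p hp q hq h
    rcases hcl p hp with ⟨h1, h1'⟩ | ⟨h1, h1'⟩ | ⟨h1, h1'⟩ | ⟨h1, h1'⟩ <;>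
    rcases hcl q hq with ⟨h2, h2'⟩ | ⟨h2, h2'⟩ | ⟨h2, h2'⟩ | ⟨h2, h2'⟩ <;>
    first
    | (exfalso; omega)
    | skip
    · have e1 := (hS p h1).2.2
      have e2 := (hS q h2).2.2
      exact Prod.ext h (by rw [← e1, ← e2, h])
    · obtain ⟨u, hu, rfl⟩ := Finset.mem_image.1 h1
      obtain ⟨w, hw, rfl⟩ := Finset.mem_image.1 h2
      have e1 : u = w := a5 (Finset.mem_coe.2 (Finset.mem_sdiff.1 hu).1)
        (Finset.mem_coe.2 (Finset.mem_sdiff.1 hw).1) h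
      rw [e1]
    · obtain ⟨u, hu, rfl⟩ := Finset.mem_image.1 h1
      obtain ⟨w, hw, rfl⟩ := Finset.mem_image.1 h2
      have e1 : u = w := b5 (Finset.mem_coe.2 (Finset.mem_sdiff.1 hu).1)
        (Finset.mem_coe.2 (Finset.mem_sdiff.1 hw).1) h
      rw [e1]
    · have e1 := (hU₃ p h1).2.2
      have e2 := (hU₃ q h2).2.2
      exact Prod.ext h (by rw [← e1, ← e2, h])
  have hsnd : ∀ p ∈ Ps, ∀ q ∈ Ps, p.2 = q.2 → p = q := by
    have hcl : ∀ p ∈ Ps, (p ∈ S ∧ p.2 % 4 = 0) ∨ (p ∈ U₁ ∧ p.2 % 4 = 1) ∨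
        (p ∈ U₂ ∧ p.2 % 4 = 2) ∨ (p ∈ U₃ ∧ p.2 % 4 = 3) := by
      intro p hp
      rcases Finset.mem_union.1 hp with h | h
      · rcases Finset.mem_union.1 h with h | h
        · rcases Finset.mem_union.1 h with h | h
          · exact Or.inl ⟨h, (hS p h).2.1⟩
          · exact Or.inr (Or.inl ⟨h, (hU₁ p h).2⟩)
        · exact Or.inr (Or.inr (Or.inl ⟨h, (hU₂ p h).2⟩))
      · exact Or.inr (Or.inr (Or.inr ⟨h, (hU₃ p h).2.1⟩))
    intro p hp q hq h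
    rcases hcl p hp with ⟨h1, h1'⟩ | ⟨h1, h1'⟩ | ⟨h1, h1'⟩ | ⟨h1, h1'⟩ <;>
    rcases hcl q hq with ⟨h2, h2'⟩ | ⟨h2, h2'⟩ | ⟨h2, h2'⟩ | ⟨h2, h2'⟩ <;>
    first
    | (exfalso; omega)
    | skip
    · have e1 := (hS p h1).2.2
      have e2 := (hS q h2).2.2
      exact Prod.ext (by rw [e1, e2, h]) h
    · obtain ⟨u, hu, rfl⟩ := Finset.mem_image.1 h1
      obtain ⟨w, hw, rfl⟩ := Finset.mem_image.1 h2
      have e1 : u = w := a6 (Finset.mem_coe.2 (Finset.mem_sdiff.1 hu).1)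
        (Finset.mem_coe.2 (Finset.mem_sdiff.1 hw).1) h
      rw [e1]
    · obtain ⟨u, hu, rfl⟩ := Finset.mem_image.1 h1
      obtain ⟨w, hw, rfl⟩ := Finset.mem_image.1 h2
      have e1 : u = w := b6 (Finset.mem_coe.2 (Finset.mem_sdiff.1 hu).1)
        (Finset.mem_coe.2 (Finset.mem_sdiff.1 hw).1) h
      rw [e1]
    · have e1 := (hU₃ p h1).2.2
      have e2 := (hU₃ q h2).2.2
      exact Prod.ext (by rw [e1, e2, h]) h
  -- the bound
  obtain ⟨W, hW⟩ : ∃ W : ℕ, ∀ p ∈ Ps, p.1 ≤ W :=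
    ⟨Ps.sup Prod.fst, fun p hp => Finset.le_sup (f := Prod.fst) hp⟩
  set K := 8 * (W + 1) with hKdef
  -- one graph
  have one : ∀ (G : SimpleGraph (Fin N)) (A B : Finset (Fin N)) (X Y : Fin N → ℕ),
      (∀ u w, G.Adj u w → u ∈ A) → Set.InjOn X A → NC G X Y →
      (∀ v ∈ A, (X v, Y v) ∈ Ps) →
      ∃ f : Fin N → ℝ × ℝ, Draw G f ∧ ∀ v, f v ∈ Ps.image fun p => ((p.1 : ℝ), (K : ℝ) ^ p.2) := by
    intro G A B X Y h1 h2 h3 h4
    obtain ⟨g, hg⟩ := Finset.exists_equiv_extend_of_card_eq (t := Ps) (s := A)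
      (f := fun v => (X v, Y v)) (by rw [Fintype.card_fin, cP])
      (by
        intro p hp
        obtain ⟨v, hv, rfl⟩ := Finset.mem_image.1 hp
        exact h4 v hv)
      (by
        intro u hu w hw h
        exact h2 hu hw (congrArg Prod.fst h))
    refine ⟨pt K (fun v => (g v : ℕ × ℕ).1) (fun v => (g v : ℕ × ℕ).2), ?_, ?_⟩
    · refine hexp G K W _ _ ?_ ?_ (fun v => hW _ (g v).2) le_rfl ?_
      · intro u w h
        apply g.injective
        apply Subtype.ext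
        exact hfst _ (g u).2 _ (g w).2 h
      · intro u w h
        apply g.injective
        apply Subtype.ext
        exact hsnd _ (g u).2 _ (g w).2 h
      · intro a₁ b₁ a₂ b₂ g1 g2 g3 g4 g5
        simp only at g3 g4 g5 ⊢
        rw [hg _ (h1 _ _ g1), hg _ (h1 _ _ g1.symm)] at g3
        rw [hg _ (h1 _ _ g2), hg _ (h1 _ _ g1.symm)] at g4
        rw [hg _ (h1 _ _ g1.symm), hg _ (h1 _ _ g2.symm)] at g5
        rw [hg _ (h1 _ _ g1), hg _ (h1 _ _ g1.symm), hg _ (h1 _ _ g2)]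
        exact h3 a₁ b₁ a₂ b₂ g1 g2 g3 g4 g5
    · intro v
      exact Finset.mem_image.2 ⟨g v, (g v).2, rfl⟩
  have hin : ∀ (A B : Finset (Fin N)) (X Y : Fin N → ℕ), B ⊆ A → (∀ v ∈ B, X v = Y v) →
      (B.image X = (Finset.range k).image (col N)) → ∀ v ∈ B, (X v, Y v) ∈ S := by
    intro A B X Y h1 h2 h3 v hv
    have h4 : X v ∈ (Finset.range k).image (col N) := by
      rw [← h3]
      exact Finset.mem_image_of_mem _ hv
    obtain ⟨i, hi, hi'⟩ := Finset.mem_image.1 h4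
    refine Finset.mem_image.2 ⟨i, hi, ?_⟩
    rw [← h2 v hv, ← hi']
  obtain ⟨f₁, hf₁, hf₁'⟩ := one G₁ A₁ B₁ X₁ Y₁ a1 a5 a11 (by
    intro v hv
    by_cases hB : v ∈ B₁
    · exact Finset.mem_union_left _ (Finset.mem_union_left _ (Finset.mem_union_left _
        (hin A₁ B₁ X₁ Y₁ a2 a7 a10 v hB)))
    · exact Finset.mem_union_left _ (Finset.mem_union_left _ (Finset.mem_union_right _
        (Finset.mem_image.2 ⟨v, Finset.mem_sdiff.2 ⟨hv, hB⟩, rfl⟩))))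
  obtain ⟨f₂, hf₂, hf₂'⟩ := one G₂ A₂ B₂ X₂ Y₂ b1 b5 b11 (by
    intro v hv
    by_cases hB : v ∈ B₂
    · exact Finset.mem_union_left _ (Finset.mem_union_left _ (Finset.mem_union_left _
        (hin A₂ B₂ X₂ Y₂ b2 b7 b10 v hB)))
    · exact Finset.mem_union_left _ (Finset.mem_union_right _
        (Finset.mem_image.2 ⟨v, Finset.mem_sdiff.2 ⟨hv, hB⟩, rfl⟩)))
  refine ⟨Ps.image fun p => ((p.1 : ℝ), (K : ℝ) ^ p.2), ?_, f₁, f₂, hf₁, hf₂, hf₁', hf₂'⟩
  rw [Finset.card_image_of_injOn, cP]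
  intro p hp q hq h
  exact hfst p (Finset.mem_coe.1 hp) q (Finset.mem_coe.1 hq)
    (Nat.cast_injective (congrArg Prod.fst h))

end Pool.Agent.SGE.H29
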